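import Pool.Agent.Helper88_KT3.SEPb

/-! Squad KT3 (MP_e54c4c_gt), row SEP: a limit pair -/

set_option autoImplicit false

open Matrix Filter Topology

noncomputable section

namespace Pool.Agent.KT3.H88

open Pool.Agent.PFS Pool.Agent.PFJ Pool.Agent.NBT Pool.Agent.KT3

theorem core1 (FAY : FayStmt) (WIP : WipStmt) (WIF : WifStmt) (WIQ : WiqStmt) (LFM : LfmStmt)
    (ANI : AniStmt) (ANC : AncStmt) (CHO : ChoStmt) (CLN : ClnStmt) (STP : StpStmt)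
    (PJL : PjlStmt) (PHC : PhcStmt)
    (n : ℕ) (C : Set (V n)) (Γ : Subgroup (GL (Fin n) ℝ)) (d q : ℕ) (H : H3 C Γ d)
    (x z : ℕ → Fin 3 → V n) (N N' : ℕ → Submodule ℝ (V n)) (w : Fin 3 → V n)
    (φ : ℕ → (V n →ₗ[ℝ] ℝ)) (pr : ℕ → (V n →ₗ[ℝ] V n)) (φ0 : V n →ₗ[ℝ] ℝ)
    (hx : ∀ m, AN C Γ d q (x m) (N m)) (hz : ∀ m, AN C Γ d q (z m) (N' m))
    (hxl : ∀ i, Tendsto (fun m => x m i) atTop (𝓝 (w i)))
    (hzl : ∀ i, Tendsto (fun m => z m i) atTop (𝓝 (w i))) (hw : ∑ i, w i ∈ C)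
    (hwpes : IsPES C Γ w)
    (hn : ∀ m, ¬ ∃ N'' : Submodule ℝ (V n), AN C Γ d q (up (x m) (z m 0)) N'')
    (hφ : ∀ m, Ph C (x m) 0 (φ m)) (hpr : ∀ m, PrI C (x m) I01 (pr m)) (hφ0 : Ph C w 0 φ0)
    (hpos : ∀ m, 0 < φ m (z m 0)) :
    ∃ (W : Fin 3 → V n) (N'' : Submodule ℝ (V n)) (y : V n) (b b' : ℝ),
      PR C Γ d q W N'' y b b' := by
  have hcc : CC C Γ := H.toHI.toHK.toCC
  have hP : PCone C := hcc.toPCone
  have h1 : ∀ m, ∃ (p : V n →ₗ[ℝ] V n) (ξ x0 : V n) (b b' : ℝ),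
      CH C (x m) (N m) (φ m) (pr m) p (z m 0) ξ x0 b b' ∧ AN C Γ d q (up (x m) x0) (N m) :=
    fun m => CHO n C Γ d q H (x m) (N m) (hx m) (φ m) (pr m) (hφ m) (hpr m) (z m 0)
      ((hz m).wl.pes.1.cl 0) (hpos m)
  choose p ξ x0 b b' hCH hx0 using h1
  have hx0l : Tendsto x0 atTop (𝓝 (w 0)) :=
    CLN n C Γ d q H x N w hx hxl hw φ pr p (fun m => z m 0) ξ x0 b b' hφ hpr
      (fun m => (hz m).wl.pes.1.cl 0) (hzl 0) hCH
  have hal : Tendsto (fun m => φ m (z m 0)) atTop (𝓝 1) := by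
    have h2 := PHC n C Γ 3 H.toHI.toHK x w (fun m => (hx m).wl.pes) hwpes hxl 0 φ φ0
      (fun m => z m 0) (w 0) hφ hφ0 (hzl 0)
    rw [hφ0.one] at h2
    exact h2
  have hail : Tendsto (fun m => (φ m (z m 0))⁻¹) atTop (𝓝 1) := by
    have h2 := hal.inv₀ one_ne_zero
    rwa [inv_one] at h2
  have hai : ∀ m, 0 < (φ m (z m 0))⁻¹ := fun m => inv_pos.mpr (hpos m)
  have hχl : Tendsto (fun m => (φ m (z m 0))⁻¹ • x0 m) atTop (𝓝 (w 0)) := by
    have h2 := hail.smul hx0l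
    rwa [one_smul] at h2
  have hζl : Tendsto (fun m => (φ m (z m 0))⁻¹ • z m 0) atTop (𝓝 (w 0)) := by
    have h2 := hail.smul (hzl 0)
    rwa [one_smul] at h2
  have hrl : Tendsto (fun m => (φ m (z m 0))⁻¹ • x0 m + (x m 1 + x m 2)) atTop
      (𝓝 (∑ i, w i)) := by
    rw [Fin.sum_univ_three, add_assoc]
    exact hχl.add ((hxl 1).add (hxl 2))
  have hul : Tendsto (fun m => (4 : ℝ) • ((φ m (z m 0))⁻¹ • z m 0 - (φ m (z m 0))⁻¹ • x0 m))
      atTop (𝓝 0) := by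
    have h2 := (hζl.sub hχl).const_smul (4 : ℝ)
    rwa [sub_self, smul_zero] at h2
  have he1 := hrl.sub hul
  have he2 := hrl.add hul
  rw [sub_zero] at he1
  rw [add_zero] at he2
  obtain ⟨M, hM⟩ := Filter.eventually_atTop.mp ((he1.eventually (hP.isOpen.mem_nhds hw)).and
    (he2.eventually (hP.isOpen.mem_nhds hw)))
  have hsh : Tendsto (fun m : ℕ => m + M) atTop atTop := tendsto_add_atTop_nat M
  refine core2 FAY WIP WIF WIQ LFM ANI ANC STP PJL n C Γ d q H (fun m => x (m + M))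
    (fun m => z (m + M)) (fun m => N (m + M)) (fun m => N' (m + M)) w
    (fun m => (φ (m + M) (z (m + M) 0))⁻¹ • x0 (m + M))
    (fun m => (φ (m + M) (z (m + M) 0))⁻¹)
    (fun m => (φ (m + M) (z (m + M) 0))⁻¹ * b (m + M))
    (fun m => (φ (m + M) (z (m + M) 0))⁻¹ * b' (m + M))
    (fun m => φ (m + M)) (fun m => pr (m + M)) (fun m => hx _) (fun m => hz _) ?_
    (fun i => (hxl i).comp hsh) (fun i => (hzl i).comp hsh) hw (hχl.comp hsh) (fun m => hai _)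
    ?_ ?_ ?_ (fun m => hpr _) (fun m => mul_nonneg (hai _).le (hCH _).b0)
    (fun m => mul_nonneg (hai _).le (hCH _).b0') ?_ ?_
    (fun m => subset_closure (hM (m + M) (Nat.le_add_left _ _)).1)
    (fun m => subset_closure (hM (m + M) (Nat.le_add_left _ _)).2)
  · intro m
    have h2 := (ANI n C Γ d q H _ _ (hx0 (m + M))).1 _ (scale_pos (hai (m + M)))
    rw [up_scale] at h2
    exact h2
  · intro m
    rw [map_smul, (hCH (m + M)).fx0, smul_eq_mul, inv_mul_cancel₀ (hpos _).ne']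
  · intro m
    rw [map_smul, smul_eq_mul, inv_mul_cancel₀ (hpos _).ne']
  · intro m h2
    have h3 : z (m + M) 0 = x0 (m + M) := smul_right_injective (V n) (hai (m + M)).ne' h2
    apply hn (m + M)
    rw [h3]
    exact ⟨_, hx0 (m + M)⟩
  · intro m
    rw [← smul_sub, map_smul, map_sub, (hCH (m + M)).prz, (hCH (m + M)).prx0,
      add_sub_cancel_left, smul_smul]
  · intro m
    rw [← smul_sub, mul_smul, ← smul_sub]
    apply Submodule.smul_mem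
    rw [← (hCH (m + M)).pj.ker, map_sub, map_sub, map_smul, (hCH (m + M)).pz,
      (hCH (m + M)).px0, (hCH (m + M)).pj.fv, add_sub_cancel_left, sub_self]

/-- **Row SEP.** -/
theorem sep (FAY : FayStmt) (_WII : WiiStmt) (WIC : WicStmt) (WIP : WipStmt) (WIF : WifStmt)
    (WIQ : WiqStmt) (PHE : PheStmt) (_PHU : PhuStmt) (PHC : PhcStmt) (_LFI : LfiStmt)
    (LFM : LfmStmt) (ANI : AniStmt) (ANC : AncStmt) (_ANF : AnfStmt) (CHO : ChoStmt)
    (CLN : ClnStmt) (STP : StpStmt) (PJL : PjlStmt) : SepStmt := by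
  intro n C Γ d q H x z N N' w hx hz hxl hzl hw hn
  have hHI : HI C Γ 3 I01 d := H.toHI
  have hHK : HK C Γ 3 := hHI.toHK
  have hwWI : WI C Γ I01 d w := (WIC n C Γ 3 I01 d hHI x w (fun m => (hx m).wl) hxl hw).1
  have hwpes : IsPES C Γ w := hwWI.pes
  obtain ⟨φ0, hφ0⟩ := PHE n C Γ 3 hHK w hwpes 0
  have h1 : ∀ m, ∃ φ : V n →ₗ[ℝ] ℝ, Ph C (x m) 0 φ := fun m =>
    PHE n C Γ 3 hHK (x m) (hx m).wl.pes 0
  choose φ hφ using h1
  have h2 : ∀ m, ∃ p : V n →ₗ[ℝ] V n, PrI C (x m) I01 p := fun m =>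
    WIP n C Γ 3 I01 d hHI (x m) (hx m).wl
  choose pr hpr using h2
  have hal : Tendsto (fun m => φ m (z m 0)) atTop (𝓝 1) := by
    have h3 := PHC n C Γ 3 hHK x w (fun m => (hx m).wl.pes) hwpes hxl 0 φ φ0
      (fun m => z m 0) (w 0) hφ hφ0 (hzl 0)
    rw [hφ0.one] at h3
    exact h3
  obtain ⟨M, hM⟩ := Filter.eventually_atTop.mp (hal.eventually (lt_mem_nhds one_pos))
  have hsh : Tendsto (fun m : ℕ => m + M) atTop atTop := tendsto_add_atTop_nat M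
  exact core1 FAY WIP WIF WIQ LFM ANI ANC CHO CLN STP PJL PHC n C Γ d q H
    (fun m => x (m + M)) (fun m => z (m + M)) (fun m => N (m + M)) (fun m => N' (m + M)) w
    (fun m => φ (m + M)) (fun m => pr (m + M)) φ0 (fun m => hx _) (fun m => hz _)
    (fun i => (hxl i).comp hsh) (fun i => (hzl i).comp hsh) hw hwpes (fun m => hn _)
    (fun m => hφ _) (fun m => hpr _) hφ0 (fun m => hM (m + M) (Nat.le_add_left _ _))

end Pool.Agent.KT3.H88
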