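import Pool.Agent.KT3.StmtsM

/-! Squad KT3 (MP_e54c4c_gt), row SEP, part a: tools and the zoom -/

set_option autoImplicit false

open Matrix Filter Topology

noncomputable section

namespace Pool.Agent.KT3.H88

open Pool.Agent.PFS Pool.Agent.PFJ Pool.Agent.NBT Pool.Agent.KT3

variable {n : ℕ} {C : Set (V n)}

lemma normal2 (hP : PCone C) : ∃ B : ℝ, 0 < B ∧ ∀ e s : V n, s - e ∈ closure C →
    s + e ∈ closure C → ‖e‖ ≤ B * ‖s‖ := by
  obtain ⟨B, hB, h⟩ := hP.normal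
  refine ⟨2 * B + 1, by positivity, ?_⟩
  intro e s h1 h2
  have h3 : (2 : ℝ) • s - (s + e) = s - e := by rw [two_smul]; abel
  have h4 := h (s + e) ((2 : ℝ) • s) h2 (by rw [h3]; exact h1)
  rw [norm_smul, Real.norm_eq_abs, abs_of_pos (by norm_num : (0:ℝ) < 2)] at h4
  have h5 : ‖e‖ ≤ ‖s + e‖ + ‖s‖ := by
    have h6 : e = (s + e) - s := by abel
    calc ‖e‖ = ‖(s + e) - s‖ := by rw [← h6]
      _ ≤ _ := norm_sub_le _ _
  nlinarith

lemma scal_lim {c : ℕ → ℝ} {v : ℕ → V n} {v' P : V n} (hc : ∀ m, 0 ≤ c m)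
    (hv : Tendsto v atTop (𝓝 v')) (hv' : v' ≠ 0)
    (hP : Tendsto (fun m => c m • v m) atTop (𝓝 P)) : ∃ c' : ℝ, 0 ≤ c' ∧ P = c' • v' := by
  refine ⟨‖P‖ / ‖v'‖, by positivity, ?_⟩
  have h1 : Tendsto (fun m => ‖c m • v m‖ / ‖v m‖) atTop (𝓝 (‖P‖ / ‖v'‖)) :=
    hP.norm.div hv.norm (norm_ne_zero_iff.mpr hv')
  have h2 : ∀ᶠ m in atTop, ‖c m • v m‖ / ‖v m‖ = c m := by
    have h3 : ∀ᶠ m in atTop, v m ≠ 0 := hv.eventually_ne hv'
    filter_upwards [h3] with m hm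
    rw [norm_smul, Real.norm_of_nonneg (hc m), mul_div_assoc,
      div_self (norm_ne_zero_iff.mpr hm), mul_one]
  have h4 : Tendsto c atTop (𝓝 (‖P‖ / ‖v'‖)) := h1.congr' h2
  exact tendsto_nhds_unique hP (h4.smul hv)

lemma small_lim {Γ : Subgroup (GL (Fin n) ℝ)} (hcc : CC C Γ) {g : ℕ → GL (Fin n) ℝ} {s : ℕ → ℝ}
    (hg : ∀ m, g m ∈ Γ) (hs : ∀ m, 0 < s m) {S T e : ℕ → V n} {p q : V n}
    (hS : Tendsto (fun m => s m • act (g m) (S m)) atTop (𝓝 p))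
    (hT : Tendsto T atTop (𝓝 q)) (hq : q ∈ C) (he : Tendsto e atTop (𝓝 0))
    (hST : ∀ m, S m - T m ∈ closure C) :
    Tendsto (fun m => s m • act (g m) (e m)) atTop (𝓝 0) := by
  have hP : PCone C := hcc.toPCone
  obtain ⟨B, hB, hnorm⟩ := normal2 hP
  obtain ⟨K, hK⟩ := hS.norm.bddAbove_range
  have hK' : ∀ m, ‖s m • act (g m) (S m)‖ ≤ K := fun m => hK ⟨m, rfl⟩
  have hK0 : 0 ≤ K := le_trans (norm_nonneg _) (hK' 0)
  rw [NormedAddGroup.tendsto_nhds_zero]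
  intro ε hε
  set η : ℝ := ε / (B * K + 1) with hη
  have hη0 : 0 < η := by positivity
  have h1 : Tendsto (fun m => η • T m - e m) atTop (𝓝 (η • q - 0)) := (hT.const_smul η).sub he
  have h2 : Tendsto (fun m => η • T m + e m) atTop (𝓝 (η • q + 0)) := (hT.const_smul η).add he
  rw [sub_zero] at h1
  rw [add_zero] at h2
  have hq' : η • q ∈ C := hP.smul q hq η hη0
  filter_upwards [h1.eventually (hP.isOpen.mem_nhds hq'),
    h2.eventually (hP.isOpen.mem_nhds hq')] with m h3 h4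
  have h5 : η • S m - e m ∈ closure C := by
    have h6 : η • S m - e m = η • (S m - T m) + (η • T m - e m) := by
      rw [smul_sub]; abel
    rw [h6]
    exact hP.cl_add (hP.cl_smul (hST m) hη0.le) (subset_closure h3)
  have h5' : η • S m + e m ∈ closure C := by
    have h6 : η • S m + e m = η • (S m - T m) + (η • T m + e m) := by
      rw [smul_sub]; abel
    rw [h6]
    exact hP.cl_add (hP.cl_smul (hST m) hη0.le) (subset_closure h4)
  have h7 := (hcc.sact_cl_iff (hg m) (hs m)).mpr h5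
  have h7' := (hcc.sact_cl_iff (hg m) (hs m)).mpr h5'
  rw [CC.act_sub, smul_sub] at h7
  rw [CC.act_add, smul_add] at h7'
  have h8 := hnorm _ _ h7 h7'
  rw [CC.act_smul, smul_comm (s m) η, norm_smul η, Real.norm_of_nonneg hη0.le] at h8
  calc ‖s m • act (g m) (e m)‖ ≤ B * (η * ‖s m • act (g m) (S m)‖) := h8
    _ ≤ B * (η * K) := by
        apply mul_le_mul_of_nonneg_left _ hB.le
        exact mul_le_mul_of_nonneg_left (hK' m) hη0.le
    _ = ε * (B * K / (B * K + 1)) := by rw [hη]; ring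
    _ < ε * 1 := by
        apply mul_lt_mul_of_pos_left _ hε
        rw [div_lt_one (by positivity)]
        linarith
    _ = ε := mul_one ε

lemma up_scale (w : Fin 3 → V n) (v : V n) (c : ℝ) :
    (fun i => (![c, 1, 1] : Fin 3 → ℝ) i • (up w v) i) = up w (c • v) := by
  funext i
  fin_cases i <;> simp [up]

lemma scale_pos {c : ℝ} (hc : 0 < c) : ∀ i, 0 < (![c, 1, 1] : Fin 3 → ℝ) i := by
  intro i
  fin_cases i <;> simp [hc]

lemma sact_sum (g : GL (Fin n) ℝ) (s : ℝ) (w : Fin 3 → V n) :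
    ∑ i, s • act g (w i) = s • act g (∑ i, w i) := by
  rw [CC.act_sum, Finset.smul_sum]

/-- the zoom -/
theorem zoom (FAY : FayStmt) (ANI : AniStmt) (ANC : AncStmt) {Γ : Subgroup (GL (Fin n) ℝ)}
    {d q : ℕ} (H : H3 C Γ d) (y : ℕ → Fin 3 → V n) (N : ℕ → Submodule ℝ (V n)) (v : ℕ → V n)
    (hy : ∀ m, AN C Γ d q (y m) (N m)) (h1 : ∀ m, (∑ i, y m i) - (4 : ℝ) • v m ∈ closure C)
    (h2 : ∀ m, (∑ i, y m i) + (4 : ℝ) • v m ∈ closure C) :
    ∃ (θ : ℕ → ℕ) (g : ℕ → GL (Fin n) ℝ) (s : ℕ → ℝ) (W : Fin 3 → V n)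
      (N'' : Submodule ℝ (V n)) (U : V n), StrictMono θ ∧ (∀ m, g m ∈ Γ) ∧ (∀ m, 0 < s m) ∧
      (∀ i, Tendsto (fun m => s m • act (g m) (y (θ m) i)) atTop (𝓝 (W i))) ∧
      ∑ i, W i ∈ C ∧ IsPES C Γ W ∧ AN C Γ d q W N'' ∧
      LimS (fun m => img (g m) (N (θ m))) N'' ∧
      Tendsto (fun m => s m • act (g m) (v (θ m))) atTop (𝓝 U) := by
  have hcc : CC C Γ := H.toHI.toHK.toCC
  have hP : PCone C := hcc.toPCone
  obtain ⟨θ1, g1, s1, p, hθ1, hg1, hs1, hp, hl1⟩ :=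
    (FAY n C Γ 3 hcc (by norm_num)).cpt y (fun m => (hy m).wl.pes)
  have hXAN : ∀ m, AN C Γ d q (fun i => s1 m • act (g1 m) (y (θ1 m) i))
      (img (g1 m) (N (θ1 m))) := fun m =>
    (ANI n C Γ d q H _ _ (hy (θ1 m))).2.1 (g1 m) (hg1 m) (s1 m) (hs1 m)
  obtain ⟨θ2, W, hθ2, hW2, hWsum, hWpes⟩ := Pool.Agent.PFS.H37.lpsF n C Γ hcc (Fin 3) (by simp)
    (fun m i => s1 m • act (g1 m) (y (θ1 m) i)) p (fun m => (hXAN m).wl.pes) hp
    (by
      refine hl1.congr fun m => ?_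
      rw [← sact_sum])
  have hWC : ∑ i, W i ∈ C := by rw [hWsum]; exact hp
  obtain ⟨θ3, N'', hθ3, hLS, hWAN⟩ := ANC n C Γ d q H
    (fun m i => s1 (θ2 m) • act (g1 (θ2 m)) (y (θ1 (θ2 m)) i))
    (fun m => img (g1 (θ2 m)) (N (θ1 (θ2 m)))) W (fun m => hXAN (θ2 m)) hW2 hWC
  -- the vectors `v`
  obtain ⟨B, hB, hnorm⟩ := normal2 hP
  have hsumlim : Tendsto (fun m => s1 m • act (g1 m) (∑ i, y (θ1 m) i)) atTop (𝓝 p) := hl1
  obtain ⟨K, hK⟩ := hsumlim.norm.bddAbove_range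
  have hK' : ∀ m, ‖s1 m • act (g1 m) (∑ i, y (θ1 m) i)‖ ≤ K := fun m => hK ⟨m, rfl⟩
  have hbd : ∀ m, (s1 (θ2 (θ3 m)) • act (g1 (θ2 (θ3 m))) (v (θ1 (θ2 (θ3 m))))) ∈
      Metric.closedBall (0 : V n) (B * K) := by
    intro m
    rw [mem_closedBall_zero_iff]
    set j := θ2 (θ3 m) with hj
    have h3 := (hcc.sact_cl_iff (hg1 j) (hs1 j)).mpr (h1 (θ1 j))
    have h4 := (hcc.sact_cl_iff (hg1 j) (hs1 j)).mpr (h2 (θ1 j))
    rw [CC.act_sub, smul_sub] at h3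
    rw [CC.act_add, smul_add] at h4
    have h5 := hnorm _ _ h3 h4
    rw [CC.act_smul, smul_comm (s1 j) (4 : ℝ), norm_smul (4 : ℝ),
      Real.norm_of_nonneg (by norm_num)] at h5
    have h6 : B * ‖s1 j • act (g1 j) (∑ i, y (θ1 j) i)‖ ≤ B * K :=
      mul_le_mul_of_nonneg_left (hK' j) hB.le
    have h7 := norm_nonneg (s1 j • act (g1 j) (v (θ1 j)))
    linarith
  obtain ⟨U, -, θ4, hθ4, hU⟩ := tendsto_subseq_of_bounded Metric.isBounded_closedBall hbd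
  refine ⟨fun m => θ1 (θ2 (θ3 (θ4 m))), fun m => g1 (θ2 (θ3 (θ4 m))),
    fun m => s1 (θ2 (θ3 (θ4 m))), W, N'', U, hθ1.comp (hθ2.comp (hθ3.comp hθ4)),
    fun m => hg1 _, fun m => hs1 _, ?_, hWC, hWpes, hWAN, ?_, hU⟩
  · intro i
    exact (hW2 i).comp (hθ3.comp hθ4).tendsto_atTop
  · exact (Pool.Agent.PFJ.H10.lsf n).1 _ _ θ4 hLS hθ4

end Pool.Agent.KT3.H88
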