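import Pool.Agent.Helper88_KT3.SEPa

/-! Squad KT3 (MP_e54c4c_gt), row SEP, part b: the core -/

set_option autoImplicit false

open Matrix Filter Topology

noncomputable section

namespace Pool.Agent.KT3.H88

open Pool.Agent.PFS Pool.Agent.PFJ Pool.Agent.NBT Pool.Agent.KT3

theorem core2 (FAY : FayStmt) (WIP : WipStmt) (WIF : WifStmt) (WIQ : WiqStmt) (LFM : LfmStmt)
    (ANI : AniStmt) (ANC : AncStmt) (STP : StpStmt) (PJL : PjlStmt)
    (n : ℕ) (C : Set (V n)) (Γ : Subgroup (GL (Fin n) ℝ)) (d q : ℕ) (H : H3 C Γ d)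
    (x z : ℕ → Fin 3 → V n) (N N' : ℕ → Submodule ℝ (V n)) (w : Fin 3 → V n) (χ : ℕ → V n)
    (a β β' : ℕ → ℝ) (φ : ℕ → (V n →ₗ[ℝ] ℝ)) (pr : ℕ → (V n →ₗ[ℝ] V n))
    (hx : ∀ m, AN C Γ d q (x m) (N m)) (hz : ∀ m, AN C Γ d q (z m) (N' m))
    (hχ : ∀ m, AN C Γ d q (up (x m) (χ m)) (N m))
    (hxl : ∀ i, Tendsto (fun m => x m i) atTop (𝓝 (w i)))
    (hzl : ∀ i, Tendsto (fun m => z m i) atTop (𝓝 (w i))) (hw : ∑ i, w i ∈ C)
    (hχl : Tendsto χ atTop (𝓝 (w 0))) (ha : ∀ m, 0 < a m)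
    (hφχ : ∀ m, φ m (χ m) = 1) (hφζ : ∀ m, φ m (a m • z m 0) = 1)
    (hne : ∀ m, a m • z m 0 ≠ χ m)
    (hpr : ∀ m, PrI C (x m) I01 (pr m)) (hβ : ∀ m, 0 ≤ β m) (hβ' : ∀ m, 0 ≤ β' m)
    (hpru : ∀ m, pr m (a m • z m 0 - χ m) = β m • x m 1)
    (hNu : ∀ m, a m • z m 0 - χ m - β' m • x m 2 ∈ N m)
    (hb1 : ∀ m, χ m + (x m 1 + x m 2) - (4:ℝ) • (a m • z m 0 - χ m) ∈ closure C)
    (hb2 : ∀ m, χ m + (x m 1 + x m 2) + (4:ℝ) • (a m • z m 0 - χ m) ∈ closure C) :
    ∃ (W : Fin 3 → V n) (N'' : Submodule ℝ (V n)) (y : V n) (b b' : ℝ),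
      PR C Γ d q W N'' y b b' := by
  classical
  have hcc : CC C Γ := H.toHI.toHK.toCC
  have hP : PCone C := hcc.toPCone
  obtain ⟨u, hu⟩ : ∃ u : ℕ → V n, u = fun m => a m • z m 0 - χ m := ⟨_, rfl⟩
  have hum : ∀ m, a m • z m 0 = χ m + u m := by
    intro m; rw [hu]; exact (add_sub_cancel _ _).symm
  have hpes : ∀ m, IsPES C Γ (up (x m) (χ m)) := fun m => (hχ m).wl.pes
  have hext : ∀ m, Ext C (χ m) := by
    intro m
    have h1 := exv n C Γ hcc 3 (by norm_num) H.maxc (up (x m) (χ m)) (hpes m) 0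
    simpa [up] using h1
  have hχcl : ∀ m, χ m ∈ closure C := by
    intro m
    have h1 := (hpes m).1.cl 0
    simpa [up] using h1
  have hxcl : ∀ m i, x m i ∈ closure C := fun m => (hx m).wl.pes.1.cl
  -- stopping times
  have hstp : ∀ m, ∃ t : ℝ, 0 ≤ t ∧
      χ m + Real.exp (-t) • (x m 1 + x m 2) - (4 : ℝ) • u m ∈ closure C ∧
      χ m + Real.exp (-t) • (x m 1 + x m 2) + (4 : ℝ) • u m ∈ closure C ∧
      ¬ (χ m + Real.exp (-(t + Real.log 2)) • (x m 1 + x m 2) - (4 : ℝ) • u m ∈ closure C ∧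
        χ m + Real.exp (-(t + Real.log 2)) • (x m 1 + x m 2) + (4 : ℝ) • u m ∈ closure C) := by
    intro m
    refine STP n C hP (χ m) (x m 1 + x m 2) (u m) (φ m) (hχcl m)
      (hP.cl_add (hxcl m 1) (hxcl m 2)) (hext m) (hφχ m) ?_ ?_ ?_ ?_
    · have h1 : u m = a m • z m 0 - χ m := by rw [hu]
      rw [h1, map_sub, hφχ, hφζ, sub_self]
    · rw [hu]
      exact sub_ne_zero.mpr (hne m)
    · rw [hu]; exact hb1 m
    · rw [hu]; exact hb2 m
  choose t ht0 ht1 ht2 ht3 using hstp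
  -- the sequence `y`
  obtain ⟨y, hy⟩ : ∃ y : ℕ → Fin 3 → V n, y = fun m => up (x m) (Real.exp (t m) • χ m) :=
    ⟨_, rfl⟩
  have hy0 : ∀ m, y m 0 = Real.exp (t m) • χ m := by intro m; rw [hy]; simp [up]
  have hy1 : ∀ m, y m 1 = x m 1 := by intro m; rw [hy]; simp [up]
  have hy2 : ∀ m, y m 2 = x m 2 := by intro m; rw [hy]; simp [up]
  have hysum : ∀ m, ∑ i, y m i = Real.exp (t m) • χ m + (x m 1 + x m 2) := by
    intro m; rw [Fin.sum_univ_three, hy0, hy1, hy2, add_assoc]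
  have hyAN : ∀ m, AN C Γ d q (y m) (N m) := by
    intro m
    have h1 := (ANI n C Γ d q H _ _ (hχ m)).1 _ (scale_pos (Real.exp_pos (t m)))
    rw [up_scale] at h1
    rw [hy]; exact h1
  have hee : ∀ m, Real.exp (t m) * Real.exp (-(t m)) = 1 := by
    intro m; rw [← Real.exp_add, add_neg_cancel, Real.exp_zero]
  obtain ⟨v, hv⟩ : ∃ v : ℕ → V n, v = fun m => Real.exp (t m) • u m := ⟨_, rfl⟩
  have hvm : ∀ m, v m = Real.exp (t m) • u m := by intro m; rw [hv]
  have hyv1 : ∀ m, (∑ i, y m i) - (4 : ℝ) • v m ∈ closure C := by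
    intro m
    have h1 := hP.cl_smul (ht1 m) (Real.exp_pos (t m)).le
    have h2 : Real.exp (t m) • (χ m + Real.exp (-(t m)) • (x m 1 + x m 2) - (4 : ℝ) • u m) =
        Real.exp (t m) • χ m + (Real.exp (t m) * Real.exp (-(t m))) • (x m 1 + x m 2) -
          (4 : ℝ) • (Real.exp (t m) • u m) := by module
    rw [h2, hee, one_smul] at h1
    rw [hysum, hvm]; exact h1
  have hyv2 : ∀ m, (∑ i, y m i) + (4 : ℝ) • v m ∈ closure C := by
    intro m
    have h1 := hP.cl_smul (ht2 m) (Real.exp_pos (t m)).le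
    have h2 : Real.exp (t m) • (χ m + Real.exp (-(t m)) • (x m 1 + x m 2) + (4 : ℝ) • u m) =
        Real.exp (t m) • χ m + (Real.exp (t m) * Real.exp (-(t m))) • (x m 1 + x m 2) +
          (4 : ℝ) • (Real.exp (t m) • u m) := by module
    rw [h2, hee, one_smul] at h1
    rw [hysum, hvm]; exact h1
  obtain ⟨θ, g, s, W, N'', U, hθ, hg, hs, hlim, hWC, hWpes, hWAN, hLS, hU⟩ :=
    zoom FAY ANI ANC H y N v hyAN hyv1 hyv2
  have hGAN : ∀ m, AN C Γ d q (fun i => s m • act (g m) (y (θ m) i)) (img (g m) (N (θ m))) :=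
    fun m => (ANI n C Γ d q H _ _ (hyAN (θ m))).2.1 (g m) (hg m) (s m) (hs m)
  have hSlim : Tendsto (fun m => s m • act (g m) (∑ i, y (θ m) i)) atTop (𝓝 (∑ i, W i)) := by
    have h1 : Tendsto (fun m => ∑ i, s m • act (g m) (y (θ m) i)) atTop (𝓝 (∑ i, W i)) :=
      tendsto_finsetSum _ (fun i _ => hlim i)
    refine h1.congr fun m => ?_
    rw [sact_sum]
  -- `±4 U ≤ ∑ W`
  have hUW2 : (∑ i, W i) + (4 : ℝ) • U ∈ closure C := by
    refine isClosed_closure.mem_of_tendsto (hSlim.add (hU.const_smul (4 : ℝ)))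
      (Eventually.of_forall fun m => ?_)
    have h1 := (hcc.sact_cl_iff (hg m) (hs m)).mpr (hyv2 (θ m))
    rw [CC.act_add, smul_add, CC.act_smul, smul_comm (s m) (4 : ℝ)] at h1
    exact h1
  -- `U ≠ 0`
  have hU0 : U ≠ 0 := by
    intro h0
    rw [h0] at hU
    have h1 : Tendsto (fun m => s m • act (g m) (∑ i, y (θ m) i) -
        (8 : ℝ) • (s m • act (g m) (v (θ m)))) atTop (𝓝 ((∑ i, W i) - (8 : ℝ) • (0 : V n))) :=
      hSlim.sub (hU.const_smul (8 : ℝ))
    have h2 : Tendsto (fun m => s m • act (g m) (∑ i, y (θ m) i) +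
        (8 : ℝ) • (s m • act (g m) (v (θ m)))) atTop (𝓝 ((∑ i, W i) + (8 : ℝ) • (0 : V n))) :=
      hSlim.add (hU.const_smul (8 : ℝ))
    rw [smul_zero, sub_zero] at h1
    rw [smul_zero, add_zero] at h2
    obtain ⟨m, h3, h4⟩ := ((h1.eventually (hP.isOpen.mem_nhds hWC)).and
      (h2.eventually (hP.isOpen.mem_nhds hWC))).exists
    have h5 : s m • act (g m) ((∑ i, y (θ m) i) - (8 : ℝ) • v (θ m)) ∈ C := by
      rw [CC.act_sub, smul_sub, CC.act_smul, smul_comm (s m) (8 : ℝ)]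
      exact h3
    have h6 : s m • act (g m) ((∑ i, y (θ m) i) + (8 : ℝ) • v (θ m)) ∈ C := by
      rw [CC.act_add, smul_add, CC.act_smul, smul_comm (s m) (8 : ℝ)]
      exact h4
    rw [hcc.sact_mem_iff (hg m) (hs m)] at h5 h6
    obtain ⟨j, hj⟩ : ∃ j, j = θ m := ⟨_, rfl⟩
    rw [← hj, hysum, hvm] at h5 h6
    obtain ⟨E, hE⟩ : ∃ E : ℝ, E = Real.exp (-(t j + Real.log 2)) := ⟨_, rfl⟩
    have hE0 : 0 < E := by rw [hE]; exact Real.exp_pos _
    have hE2 : E * Real.exp (t j) = 1 / 2 := by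
      rw [hE, ← Real.exp_add]
      have : -(t j + Real.log 2) + t j = -Real.log 2 := by ring
      rw [this, Real.exp_neg, Real.exp_log (by norm_num)]
      norm_num
    apply ht3 j
    rw [← hE]
    constructor
    · have h7 : χ j + E • (x j 1 + x j 2) - (4 : ℝ) • u j =
          (1 / 2 : ℝ) • χ j + E • (Real.exp (t j) • χ j + (x j 1 + x j 2) -
            (8 : ℝ) • Real.exp (t j) • u j) := by
        have h8 : E • (Real.exp (t j) • χ j + (x j 1 + x j 2) -
            (8 : ℝ) • Real.exp (t j) • u j) = (E * Real.exp (t j)) • χ j +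
            E • (x j 1 + x j 2) - (8 * (E * Real.exp (t j))) • u j := by module
        rw [h8, hE2]
        module
      rw [h7]
      exact hP.cl_add (hP.cl_smul (hχcl j) (by norm_num))
        (hP.cl_smul (subset_closure h5) hE0.le)
    · have h7 : χ j + E • (x j 1 + x j 2) + (4 : ℝ) • u j =
          (1 / 2 : ℝ) • χ j + E • (Real.exp (t j) • χ j + (x j 1 + x j 2) +
            (8 : ℝ) • Real.exp (t j) • u j) := by
        have h8 : E • (Real.exp (t j) • χ j + (x j 1 + x j 2) +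
            (8 : ℝ) • Real.exp (t j) • u j) = (E * Real.exp (t j)) • χ j +
            E • (x j 1 + x j 2) + (8 * (E * Real.exp (t j))) • u j := by module
        rw [h8, hE2]
        module
      rw [h7]
      exact hP.cl_add (hP.cl_smul (hχcl j) (by norm_num))
        (hP.cl_smul (subset_closure h6) hE0.le)
  -- the sequence `z'`
  have hz'AN : ∀ m, AN C Γ d q (fun i => (![Real.exp (t m) * a m, 1, 1] : Fin 3 → ℝ) i • z m i)
      (N' m) := fun m =>
    (ANI n C Γ d q H _ _ (hz m)).1 _ (scale_pos (mul_pos (Real.exp_pos (t m)) (ha m)))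
  have hGz'AN : ∀ m, AN C Γ d q (fun i => s m • act (g m)
      ((![Real.exp (t (θ m)) * a (θ m), 1, 1] : Fin 3 → ℝ) i • z (θ m) i))
      (img (g m) (N' (θ m))) := fun m =>
    (ANI n C Γ d q H _ _ (hz'AN (θ m))).2.1 (g m) (hg m) (s m) (hs m)
  have hθl : Tendsto θ atTop atTop := hθ.tendsto_atTop
  have hTlim : Tendsto (fun m => χ (θ m) + (x (θ m) 1 + x (θ m) 2)) atTop (𝓝 (∑ i, w i)) := by
    rw [Fin.sum_univ_three, add_assoc]
    exact (hχl.comp hθl).add (((hxl 1).comp hθl).add ((hxl 2).comp hθl))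
  have hST : ∀ m, (∑ i, y (θ m) i) - (χ (θ m) + (x (θ m) 1 + x (θ m) 2)) ∈ closure C := by
    intro m
    rw [hysum]
    have h1 : Real.exp (t (θ m)) • χ (θ m) + (x (θ m) 1 + x (θ m) 2) -
        (χ (θ m) + (x (θ m) 1 + x (θ m) 2)) = (Real.exp (t (θ m)) - 1) • χ (θ m) := by module
    rw [h1]
    exact hP.cl_smul (hχcl _) (by linarith [Real.add_one_le_exp (t (θ m)), ht0 (θ m)])
  have hdiff : ∀ i, Tendsto (fun m => s m • act (g m) (z (θ m) i - x (θ m) i)) atTop (𝓝 0) := by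
    intro i
    refine small_lim hcc hg hs hSlim hTlim hw ?_ hST
    have h1 := ((hzl i).comp hθl).sub ((hxl i).comp hθl)
    rw [sub_self] at h1
    exact h1
  have hz'lim : ∀ i, Tendsto (fun m => s m • act (g m)
      ((![Real.exp (t (θ m)) * a (θ m), 1, 1] : Fin 3 → ℝ) i • z (θ m) i)) atTop
      (𝓝 (up W (W 0 + U) i)) := by
    intro i
    fin_cases i
    · have h1 : up W (W 0 + U) (0 : Fin 3) = W 0 + U := by simp [up]
      have h2 := (hlim 0).add hU
      change Tendsto _ _ (𝓝 (up W (W 0 + U) (0 : Fin 3)))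
      rw [h1]
      refine h2.congr fun m => ?_
      rw [← smul_add, ← CC.act_add, hy0, hvm, ← smul_add, ← hum, smul_smul]
      simp
    · have h1 : up W (W 0 + U) (1 : Fin 3) = W 1 := by simp [up]
      have h2 := (hlim 1).add (hdiff 1)
      change Tendsto _ _ (𝓝 (up W (W 0 + U) (1 : Fin 3)))
      rw [h1]
      rw [add_zero] at h2
      refine h2.congr fun m => ?_
      rw [← smul_add, ← CC.act_add, hy1]
      simp
    · have h1 : up W (W 0 + U) (2 : Fin 3) = W 2 := by simp [up]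
      have h2 := (hlim 2).add (hdiff 2)
      change Tendsto _ _ (𝓝 (up W (W 0 + U) (2 : Fin 3)))
      rw [h1]
      rw [add_zero] at h2
      refine h2.congr fun m => ?_
      rw [← smul_add, ← CC.act_add, hy2]
      simp
  have hupC : ∑ i, up W (W 0 + U) i ∈ C := by
    have h1 : ∑ i, up W (W 0 + U) i = (1 / 4 : ℝ) • (((∑ i, W i) + (4 : ℝ) • U) +
        (3 : ℝ) • ∑ i, W i) := by
      rw [Fin.sum_univ_three, Fin.sum_univ_three]
      simp only [up, Function.update_self, ne_eq, Fin.reduceEq, not_false_eq_true,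
        Function.update_of_ne, one_ne_zero]
      module
    rw [h1]
    exact hP.smul _ (hP.cl_add' hUW2 (hP.smul _ hWC 3 (by norm_num))) _ (by norm_num)
  obtain ⟨-, N3, -, -, hupAN⟩ := ANC n C Γ d q H _ _ (up W (W 0 + U)) hGz'AN hz'lim hupC
  -- the vertices of `W` are not 0
  have hWne : ∀ i, W i ≠ 0 := fun i =>
    (Pool.Agent.PFS.H60.lin n C hP (Fin 3) W hWpes.1).ne_zero i
  have hHI : HI C Γ 3 I01 d := H.toHI
  -- the first coordinate
  have hp1 : ∃ b : ℝ, 0 ≤ b ∧ Pool.Agent.PCO.Sml C (W 2) (U - b • W 1) := by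
    obtain ⟨P0, hP0⟩ := WIP n C Γ 3 I01 d hHI W hWAN.wl
    have h1 : ∀ m, ∃ p : V n →ₗ[ℝ] V n,
        PrI C (fun i => s m • act (g m) (y (θ m) i)) I01 p := fun m =>
      WIP n C Γ 3 I01 d hHI _ (hGAN m).wl
    choose P hPr using h1
    have h2 : ∀ m, P m (s m • act (g m) (v (θ m))) =
        (Real.exp (t (θ m)) * β (θ m)) • (s m • act (g m) (y (θ m) 1)) := by
      intro m
      obtain ⟨py, hpy⟩ := WIP n C Γ 3 I01 d hHI (y (θ m)) (hyAN (θ m)).wl
      obtain ⟨-, -, -, -, h5, h6, -⟩ := WIF n C Γ 3 I01 d hHI (y (θ m)) (hyAN (θ m)).wl py hpy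
      have h7 := (h6 (x (θ m)) (hx (θ m)).wl (by
        intro i hi
        fin_cases i
        · exact absurd (by decide) hi
        · exact absurd (by decide) hi
        · exact (hy2 (θ m)).symm) (pr (θ m)) (hpr (θ m))).1
      have h8 : py (u (θ m)) = β (θ m) • y (θ m) 1 := by
        rw [← h7 (u (θ m))]
        have h9 : pr (θ m) (u (θ m)) = β (θ m) • x (θ m) 1 := by
          rw [← hpru (θ m), hu]
        rw [h9, map_smul, ← hy1]
        have h10 : y (θ m) 1 ∈ BI C (y (θ m)) I01 := (hyAN (θ m)).wl.box.mem 1 (by decide)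
        rw [hpy.idB _ h10]
      rw [map_smul, h5 (g m) (hg m) (s m) (hs m) (P m) (hPr m) (v (θ m)), hvm, map_smul, h8,
        smul_smul, CC.act_smul, smul_comm (s m)]
    have h3 : Tendsto (fun m => P m (s m • act (g m) (v (θ m)))) atTop (𝓝 (P0 U)) :=
      WIQ n C Γ 3 I01 d hHI (fun m i => s m • act (g m) (y (θ m) i)) W (fun m => (hGAN m).wl)
        hWAN.wl hlim P P0 _ U hPr hP0 hU
    have h4 : Tendsto (fun m => (Real.exp (t (θ m)) * β (θ m)) •
        (s m • act (g m) (y (θ m) 1))) atTop (𝓝 (P0 U)) := h3.congr h2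
    obtain ⟨b, hb, hPb⟩ := scal_lim (fun m => mul_nonneg (Real.exp_pos _).le (hβ (θ m)))
      (hlim 1) (hWne 1) h4
    refine ⟨b, hb, ?_⟩
    have h5 : P0 (U - b • W 1) = 0 := by
      rw [map_sub, map_smul, hPb, hP0.idB _ (hWAN.wl.box.mem 1 (by decide)), sub_self]
    have h6 := (hP0.ker _).mp h5
    have h7 : fS W I01ᶜ = W 2 := by
      have h8 : (I01ᶜ : Finset (Fin 3)) = {2} := by decide
      unfold fS
      rw [h8, Finset.sum_singleton]
    rw [h7] at h6
    exact h6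
  -- the second coordinate
  have hp2 : ∃ b' : ℝ, 0 ≤ b' ∧ U - b' • W 2 ∈ N'' := by
    have h1 : ∀ m, ∃ p : V n →ₗ[ℝ] V n, PJ C (img (g m) (N (θ m)))
        (s m • act (g m) (y (θ m) 0)) (s m • act (g m) (y (θ m) 2)) p := fun m =>
      (hGAN m).prj _ (LFM n C Γ d H _ (hGAN m).wl).1
    choose P hPJ using h1
    have h2 : ∀ m, P m (s m • act (g m) (v (θ m))) =
        (Real.exp (t (θ m)) * β' (θ m)) • (s m • act (g m) (y (θ m) 2)) := by
      intro m
      have h3 : v (θ m) = Real.exp (t (θ m)) • (u (θ m) - β' (θ m) • x (θ m) 2) +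
          (Real.exp (t (θ m)) * β' (θ m)) • y (θ m) 2 := by
        rw [hvm, hy2]; module
      have h4 : Real.exp (t (θ m)) • (u (θ m) - β' (θ m) • x (θ m) 2) ∈ N (θ m) := by
        apply Submodule.smul_mem
        rw [hu]; exact hNu (θ m)
      have h5 : s m • act (g m) (Real.exp (t (θ m)) • (u (θ m) - β' (θ m) • x (θ m) 2)) ∈
          img (g m) (N (θ m)) := Submodule.smul_mem _ _ ⟨_, h4, rfl⟩
      rw [h3, CC.act_add, smul_add, map_add, ((hPJ m).ker _).mpr h5, zero_add, CC.act_smul,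
        smul_comm (s m), map_smul, (hPJ m).fv]
    obtain ⟨θ', P0, hθ', hP0, hPlim⟩ := PJL n C hP (fun m => img (g m) (N (θ m))) N'' hLS
      (fun m => s m • act (g m) (y (θ m) 0)) (fun m => s m • act (g m) (y (θ m) 2))
      (fun m => s m • act (g m) (y (θ m) 1)) (W 0) (W 2) (W 1) (hlim 0) (hlim 2) (hlim 1)
      (by
        rw [Fin.sum_univ_three] at hWC
        have h3 : W 0 + W 2 + W 1 = W 0 + W 1 + W 2 := by abel
        rw [h3]; exact hWC)
      (fun m => (hGAN m).mem) P hPJ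
    have h3 := hPlim (fun m => s (θ' m) • act (g (θ' m)) (v (θ (θ' m)))) U
      (hU.comp hθ'.tendsto_atTop)
    have h4 : Tendsto (fun m => (Real.exp (t (θ (θ' m))) * β' (θ (θ' m))) •
        (s (θ' m) • act (g (θ' m)) (y (θ (θ' m)) 2))) atTop (𝓝 (P0 U)) :=
      h3.congr fun m => h2 (θ' m)
    obtain ⟨b', hb', hPb⟩ := scal_lim (fun m => mul_nonneg (Real.exp_pos _).le (hβ' (θ (θ' m))))
      ((hlim 2).comp hθ'.tendsto_atTop) (hWne 2) h4
    refine ⟨b', hb', ?_⟩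
    rw [← hP0.ker, map_sub, map_smul, hPb, hP0.fv, sub_self]
  obtain ⟨b, hb, hSml⟩ := hp1
  obtain ⟨b', hb', hN⟩ := hp2
  refine ⟨W, N'', W 0 + U, b, b', hWAN, ⟨N3, hupAN⟩, ?_, hb, hb', ?_, ?_⟩
  · intro h
    exact hU0 (by simpa using h)
  · rw [add_sub_cancel_left]; exact hSml
  · rw [add_sub_cancel_left]; exact hN

end Pool.Agent.KT3.H88
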